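import Pool.Agent.L0h1.SJ.StmA

/-!
# Project SJ, module ASM: from the moments to the law (helper88)
-/

set_option autoImplicit false

open scoped Classical

namespace Pool.Agent.L0h88.SJ.ASM

open Finset Pool.Agent.L0h1.SJ Filter Topology

/-- comparison of products -/
lemma prod_diff {ι : Type} (s : Finset ι) (a b g : ι → ℝ) (ha : ∀ i, |a i| ≤ 1)
    (hab : ∀ i, |a i - b i| ≤ g i) :
    |∏ i ∈ s, a i - ∏ i ∈ s, b i| ≤ ∏ i ∈ s, (1 + g i) - 1 := by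
  have hg : ∀ i, 0 ≤ g i := fun i => (abs_nonneg _).trans (hab i)
  have hb : ∀ i, |b i| ≤ 1 + g i := fun i => by
    have h1 := abs_le.mp (ha i)
    have h2 := abs_le.mp (hab i)
    rw [abs_le]
    constructor <;> linarith [h1.1, h1.2, h2.1, h2.2]
  induction s using Finset.induction_on with
  | empty => simp
  | insert x s hx ih =>
    rw [prod_insert hx, prod_insert hx, prod_insert hx]
    have h1 : |∏ i ∈ s, b i| ≤ ∏ i ∈ s, (1 + g i) := by
      rw [abs_prod]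
      exact prod_le_prod (fun i _ => abs_nonneg _) (fun i _ => hb i)
    have e : a x * ∏ i ∈ s, a i - b x * ∏ i ∈ s, b i =
        a x * (∏ i ∈ s, a i - ∏ i ∈ s, b i) + (a x - b x) * ∏ i ∈ s, b i := by ring
    rw [e]
    calc |a x * (∏ i ∈ s, a i - ∏ i ∈ s, b i) + (a x - b x) * ∏ i ∈ s, b i| ≤
        |a x * (∏ i ∈ s, a i - ∏ i ∈ s, b i)| + |(a x - b x) * ∏ i ∈ s, b i| :=
          abs_add_le _ _
      _ = |a x| * |∏ i ∈ s, a i - ∏ i ∈ s, b i| + |a x - b x| * |∏ i ∈ s, b i| := by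
          rw [abs_mul, abs_mul]
      _ ≤ 1 * (∏ i ∈ s, (1 + g i) - 1) + g x * ∏ i ∈ s, (1 + g i) := by
          apply add_le_add
          · exact mul_le_mul (ha x) ih (abs_nonneg _) zero_le_one
          · exact mul_le_mul (hab x) h1 (abs_nonneg _) (hg x)
      _ = (1 + g x) * ∏ i ∈ s, (1 + g i) - 1 := by ring

/-- the products of linear combinations -/
lemma mom_abs {S : Type} [Fintype S] {t : ℕ} (M : S → Fin t → ℕ → ℝ) (P : ℝ) (R : Finset ℕ)
    (c : ℕ → ℝ) (e : ℝ) (h : ∀ κ : Fin t → ℕ, (∀ l, κ l ∈ R) →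
      |(∑ σ, ∏ l, M σ l (κ l)) / P - 2 ^ (∑ l, κ l)| ≤ e) :
    |(∑ σ, ∏ l, ∑ k ∈ R, c k * M σ l k) / P - (∑ k ∈ R, c k * 2 ^ k) ^ t| ≤
      e * (∑ k ∈ R, |c k|) ^ t := by
  have h1 : ∀ σ, ∏ l, ∑ k ∈ R, c k * M σ l k =
      ∑ κ ∈ Fintype.piFinset (fun _ : Fin t => R), (∏ l, c (κ l)) * ∏ l, M σ l (κ l) := by
    intro σ
    rw [Finset.prod_univ_sum]
    exact Finset.sum_congr rfl fun κ _ => Finset.prod_mul_distrib
  have h2 : (∑ k ∈ R, c k * (2 : ℝ) ^ k) ^ t =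
      ∑ κ ∈ Fintype.piFinset (fun _ : Fin t => R), (∏ l, c (κ l)) * 2 ^ (∑ l, κ l) := by
    have h3 : (∑ k ∈ R, c k * (2 : ℝ) ^ k) ^ t = ∏ _l : Fin t, ∑ k ∈ R, c k * (2 : ℝ) ^ k := by
      rw [Finset.prod_const, Finset.card_univ, Fintype.card_fin]
    rw [h3, Finset.prod_univ_sum]
    apply Finset.sum_congr rfl
    intro κ _
    rw [Finset.prod_mul_distrib, Finset.prod_pow_eq_pow_sum]
  have h4 : (∑ k ∈ R, |c k|) ^ t =
      ∑ κ ∈ Fintype.piFinset (fun _ : Fin t => R), ∏ l, |c (κ l)| := by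
    have h3 : (∑ k ∈ R, |c k|) ^ t = ∏ _l : Fin t, ∑ k ∈ R, |c k| := by
      rw [Finset.prod_const, Finset.card_univ, Fintype.card_fin]
    rw [h3, Finset.prod_univ_sum]
  have h5 : (∑ σ, ∏ l, ∑ k ∈ R, c k * M σ l k) / P - (∑ k ∈ R, c k * 2 ^ k) ^ t =
      ∑ κ ∈ Fintype.piFinset (fun _ : Fin t => R),
        (∏ l, c (κ l)) * ((∑ σ, ∏ l, M σ l (κ l)) / P - 2 ^ (∑ l, κ l)) := by
    rw [h2, Finset.sum_congr rfl fun σ _ => h1 σ, Finset.sum_comm, Finset.sum_div,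
      ← Finset.sum_sub_distrib]
    apply Finset.sum_congr rfl
    intro κ _
    rw [← Finset.mul_sum]
    ring
  rw [h5, h4, Finset.mul_sum]
  refine (Finset.abs_sum_le_sum_abs _ _).trans (Finset.sum_le_sum fun κ hκ => ?_)
  rw [abs_mul, abs_prod, mul_comm e]
  apply mul_le_mul_of_nonneg_left _ (Finset.prod_nonneg fun _ _ => abs_nonneg _)
  exact h κ fun l => (Fintype.mem_piFinset.mp hκ) l

lemma cnt_zero {V : Type} [Fintype V] (M : V → V → ZMod 2) : cnt 0 M = 1 := by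
  unfold cnt
  rw [Finset.filter_true_of_mem, Finset.card_univ, Fintype.card_unique]
  intro ξ _
  exact ⟨fun i => i.elim0, fun c hc => hc.choose.elim0⟩

theorem t_ASM : S_ASM := by
  intro hBON hEUL hMOM t n ε hε
  -- the choice of `T`
  obtain ⟨s, hs⟩ : ∃ s : ℕ → ℝ, s = fun T => ∑ k ∈ range (T + 1), ak k * 2 ^ k := ⟨_, rfl⟩
  have hsl : Tendsto s atTop (𝓝 eta) := by rw [hs]; exact hEUL
  obtain ⟨r, hr⟩ : ∃ r : ℕ → ℝ, r = fun T => |ak (T + 1)| * 2 ^ (T + 1) := ⟨_, rfl⟩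
  have hrl : Tendsto r atTop (𝓝 0) := by
    have h1 : Tendsto (fun T => s (T + 1) - s T) atTop (𝓝 (eta - eta)) :=
      (hsl.comp (tendsto_add_atTop_nat 1)).sub hsl
    rw [sub_self] at h1
    have h2 := h1.abs
    rw [abs_zero] at h2
    refine h2.congr fun T => ?_
    rw [hs, hr]
    simp only []
    rw [Finset.sum_range_succ _ (T + 1), add_sub_cancel_left, abs_mul,
      abs_of_pos (show (0 : ℝ) < 2 ^ (T + 1) by positivity)]
  have hs2 : Tendsto (fun T => s T ^ t) atTop (𝓝 (eta ^ t)) := hsl.pow t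
  have hr2 : Tendsto (fun T => (1 + r T) ^ t) atTop (𝓝 1) := by
    have h1 := (hrl.const_add 1).pow t
    rw [add_zero, one_pow] at h1
    exact h1
  have hε4 : 0 < ε / 4 := by positivity
  obtain ⟨T, hT1, hT2⟩ : ∃ T, |s T ^ t - eta ^ t| < ε / 4 ∧ |(1 + r T) ^ t - 1| < ε / 4 := by
    have h1 := (Metric.tendsto_atTop.mp hs2) (ε / 4) hε4
    have h2 := (Metric.tendsto_atTop.mp hr2) (ε / 4) hε4
    obtain ⟨n1, hn1⟩ := h1
    obtain ⟨n2, hn2⟩ := h2
    exact ⟨max n1 n2, hn1 _ (le_max_left _ _), hn2 _ (le_max_right _ _)⟩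
  obtain ⟨A, hA⟩ : ∃ A : ℝ, A = (∑ k ∈ range (T + 1), |ak k|) ^ t := ⟨_, rfl⟩
  obtain ⟨B, hB⟩ : ∃ B : ℝ, B = (1 + |ak (T + 1)|) ^ t := ⟨_, rfl⟩
  have hA0 : 0 ≤ A := by rw [hA]; positivity
  have hB0 : 0 ≤ B := by rw [hB]; positivity
  obtain ⟨e, he⟩ : ∃ e : ℝ, e = ε / 4 / (A + B + 1) := ⟨_, rfl⟩
  have he0 : 0 < e := by rw [he]; positivity
  have heA : e * A + e * B ≤ ε / 4 := by
    rw [← mul_add, he, div_mul_eq_mul_div, div_le_iff₀ (by positivity)]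
    nlinarith
  choose C hC using fun κ : Fin t → ℕ => hMOM t n κ e he0
  refine ⟨(Fintype.piFinset fun _ : Fin t => range (T + 2)).sup C + 1,
    fun U _ J _ _ w uU uJ N NJ x JR hl hu hJR => ?_⟩
  have hsz : 1 ≤ sz U := by
    unfold sz
    omega
  have hJne : Nonempty J := by
    have h1 : 1 ≤ (univ.filter fun k => uJ k = 1).card :=
      le_trans (Nat.le_trans (Nat.le_add_left 1 _) (Nat.le_mul_of_pos_right _ hsz)) hu
    obtain ⟨k, _⟩ := Finset.card_pos.mp h1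
    exact ⟨k⟩
  obtain ⟨P, hP⟩ : ∃ P : ℝ, P = 2 ^ (ps J).card := ⟨_, rfl⟩
  have hP0 : 0 < P := by rw [hP]; positivity
  have hcard : (Fintype.card (ps J → ZMod 2) : ℝ) = P := by
    rw [Fintype.card_fun, ZMod.card, Fintype.card_coe, hP]
    push_cast
    rfl
  have hmom : ∀ κ : Fin t → ℕ, (∀ l, κ l ∈ range (T + 2)) →
      |(∑ σ : ps J → ZMod 2, ∏ l, (cnt (κ l) (pt (N l) (sx σ)) : ℝ)) / P -
        2 ^ (∑ l, κ l)| ≤ e := by
    intro κ hκ
    rw [hP]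
    have h1 : C κ ≤ (Fintype.piFinset fun _ : Fin t => range (T + 2)).sup C + 1 :=
      (Finset.le_sup (f := C) (Fintype.mem_piFinset.mpr hκ)).trans (Nat.le_succ _)
    exact hC κ U J w uU uJ N NJ x JR hl ((Nat.mul_le_mul_right _ h1).trans hu)
      (fun r => (Nat.mul_le_mul_right _ h1).trans (hJR r))
  have m1 := mom_abs (fun (σ : ps J → ZMod 2) l k => (cnt k (pt (N l) (sx σ)) : ℝ)) P
    (range (T + 1)) ak e (fun κ hκ => hmom κ fun l => by
      have := Finset.mem_range.mp (hκ l)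
      exact Finset.mem_range.mpr (by omega))
  have m2 := mom_abs (fun (σ : ps J → ZMod 2) l k => (cnt k (pt (N l) (sx σ)) : ℝ)) P
    {0, T + 1} (fun k => if k = 0 then 1 else |ak (T + 1)|) e (fun κ hκ => hmom κ fun l => by
      have h1 := hκ l
      rw [Finset.mem_insert, Finset.mem_singleton] at h1
      exact Finset.mem_range.mpr (by omega))
  have hne : (0 : ℕ) ≠ T + 1 := by omega
  rw [Finset.sum_pair hne, Finset.sum_pair hne] at m2
  simp only [Finset.sum_pair hne, if_true, if_neg (Ne.symm hne), pow_zero, mul_one, one_mul,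
    cnt_zero, Nat.cast_one, abs_one, abs_abs] at m2
  rw [← hB] at m2
  rw [← hA] at m1
  have hsT : ∑ k ∈ range (T + 1), ak k * 2 ^ k = s T := by rw [hs]
  have hrT : |ak (T + 1)| * 2 ^ (T + 1) = r T := by rw [hr]
  rw [hsT] at m1
  rw [hrT] at m2
  -- the numerator
  have hnum : ((univ.filter fun σ : ps J → ZMod 2 => ∀ l, Gv (pt (N l) (sx σ))).card : ℝ) =
      ∑ σ : ps J → ZMod 2, ∏ l, (if Gv (pt (N l) (sx σ)) then (1 : ℝ) else 0) := by
    rw [← Finset.sum_boole]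
    apply Finset.sum_congr rfl
    intro σ _
    rw [Finset.prod_boole]
    simp
  rw [hnum, ← hP]
  obtain ⟨X, hX⟩ : ∃ X : ℝ, X = ∑ σ : ps J → ZMod 2,
    ∏ l, (if Gv (pt (N l) (sx σ)) then (1 : ℝ) else 0) := ⟨_, rfl⟩
  obtain ⟨Y, hY⟩ : ∃ Y : ℝ, Y = ∑ σ : ps J → ZMod 2,
    ∏ l, ∑ k ∈ range (T + 1), ak k * (cnt k (pt (N l) (sx σ)) : ℝ) := ⟨_, rfl⟩
  obtain ⟨Z, hZ⟩ : ∃ Z : ℝ, Z = ∑ σ : ps J → ZMod 2,
    ∏ l, (1 + |ak (T + 1)| * (cnt (T + 1) (pt (N l) (sx σ)) : ℝ)) := ⟨_, rfl⟩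
  rw [← hX]
  rw [← hY] at m1
  rw [← hZ] at m2
  have hXY : |X - Y| ≤ Z - P := by
    rw [hX, hY, hZ, ← Finset.sum_sub_distrib, ← hcard]
    refine (Finset.abs_sum_le_sum_abs _ _).trans ?_
    have h1 : (Fintype.card (ps J → ZMod 2) : ℝ) = ∑ _σ : ps J → ZMod 2, (1 : ℝ) := by
      rw [Finset.sum_const, Finset.card_univ, nsmul_eq_mul, mul_one]
    rw [h1, ← Finset.sum_sub_distrib]
    apply Finset.sum_le_sum
    intro σ _
    apply prod_diff
    · intro l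
      split_ifs <;> simp
    · intro l
      exact hBON (U l ⊕ J) (pt (N l) (sx σ)) T
  have h1 : |X / P - Y / P| ≤ Z / P - 1 := by
    rw [← sub_div, abs_div, abs_of_pos hP0]
    have : Z / P - 1 = (Z - P) / P := by field_simp
    rw [this]
    exact div_le_div_of_nonneg_right hXY hP0.le
  have a1 := abs_le.mp m1
  have a2 := abs_le.mp m2
  have a3 := abs_le.mp h1
  have a4 := abs_lt.mp hT1
  have a5 := abs_lt.mp hT2
  rw [abs_le]
  constructor <;> linarith [a1.1, a1.2, a2.1, a2.2, a3.1, a3.2, a4.1, a4.2, a5.1, a5.2]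

end Pool.Agent.L0h88.SJ.ASM
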