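import Pool.Agent.L0h1.SJ.StmA

/-!
# Project SJ, module ORT (helper88)
-/

set_option autoImplicit false

open scoped Classical

namespace Pool.Agent.L0h88.SJ

open Finset Pool.Agent.L0h1.SJ

lemma z2 (a : ZMod 2) (h : a ≠ 0) : a = 1 := by
  revert h
  revert a
  decide

lemma sr_zero : sr 0 = 1 := by
  unfold sr
  rw [if_pos rfl]

lemma sr_one : sr 1 = -1 := by
  unfold sr
  rw [if_neg (by decide)]

lemma sr_flip (a : ZMod 2) : sr a + sr (a + 1) = 0 := by
  by_cases h : a = 0
  · rw [h, zero_add, sr_zero, sr_one]
    norm_num
  · rw [z2 a h, show (1 : ZMod 2) + 1 = 0 by decide, sr_zero, sr_one]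
    norm_num

lemma sr_le (a : ZMod 2) : sr a ≤ 1 := by
  unfold sr
  split_ifs <;> norm_num

theorem t_ORT : S_ORT := by
  intro J I _ _ X b
  by_cases h : ∃ y ∈ RX X, pr y b ≠ 0
  · have h0 : ∑ y ∈ RX X, sr (pr y b) = 0 := by
      obtain ⟨y₀, hy₀, h1⟩ := h
      have h2 := z2 _ h1
      have hpr : ∀ y : J → I → ZMod 2, pr (y + y₀) b = pr y b + 1 := by
        intro y
        rw [← h2]
        unfold pr
        rw [← Finset.sum_add_distrib]
        apply Finset.sum_congr rfl
        intro q _
        rw [← Finset.sum_add_distrib]
        apply Finset.sum_congr rfl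
        intro i _
        simp only [Pi.add_apply]
        ring
      have hyy : y₀ + y₀ = 0 := by
        funext q i
        exact CharTwo.add_self_eq_zero _
      refine Finset.sum_involution (fun y _ => y + y₀) ?_ ?_ ?_ ?_
      · intro y _
        rw [hpr]
        exact sr_flip _
      · intro y _ _ hy
        have h3 : y₀ = 0 := by
          have := congrArg (fun z => y + z) hy
          simp only [← add_assoc] at this
          have hyy2 : y + y = 0 := by
            funext q i
            exact CharTwo.add_self_eq_zero _
          rw [hyy2, zero_add] at this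
          exact this
        rw [h3] at h1
        apply h1
        unfold pr
        simp
      · intro y hy
        unfold RX at hy hy₀ ⊢
        rw [mem_filter] at hy hy₀ ⊢
        refine ⟨mem_univ _, fun p q => ?_⟩
        have h3 := hy.2 p q
        have h4 := hy₀.2 p q
        have h5 : ∑ i, ((y + y₀) p i + (y + y₀) q i) * (X p i + X q i) =
            ∑ i, (y p i + y q i) * (X p i + X q i) +
              ∑ i, (y₀ p i + y₀ q i) * (X p i + X q i) := by
          rw [← Finset.sum_add_distrib]
          apply Finset.sum_congr rfl
          intro i _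
          simp only [Pi.add_apply]
          ring
        rw [h5, h3, h4, add_zero]
      · intro y _
        rw [add_assoc, hyy, add_zero]
    rw [h0]
    exact ⟨le_rfl, Nat.cast_nonneg _, fun _ => rfl⟩
  · have h1 : ∑ y ∈ RX X, sr (pr y b) = (RX X).card := by
      have : ∀ y ∈ RX X, sr (pr y b) = 1 := by
        intro y hy
        by_cases h2 : pr y b = 0
        · rw [h2, sr_zero]
        · exact absurd ⟨y, hy, h2⟩ h
      rw [Finset.sum_congr rfl this, Finset.sum_const, nsmul_eq_mul, mul_one]
    rw [h1]
    exact ⟨Nat.cast_nonneg _, le_rfl, fun h2 => absurd h2 h⟩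

end Pool.Agent.L0h88.SJ
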